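import Mathlib

/-!
# M1, chapter (F) (MP_4d57ea_nt): abstract systems of primes with norms, classes and positions

Text: think 975, 984, 1003 (MP_4d57ea_nt).  `Sys H`: a set `P` of primes `v` with norm `N v`, rational prime `q v` below `v`, class
`c v` in the finite group `H` and position `g v` in the torus `T2 = (R/Z)^2`.  `t v = log (N v)`.
`w0 ρ`: the kernel of the cells (integral one).  `f ρ c t x`: the density of the primes in the cell of size `ρ` at `(c,t,x)`;
`nf ρ c t x`: the same for the products of two primes.  `Sel`: the formula of Selberg in the cells; `Mer`: the theorem of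
Mertens in the classes.  `ft`: the density, smoothed with `w0 * w0`.
-/

set_option autoImplicit false

namespace Pool.Agent.H38.MM

open MeasureTheory

/-- the torus -/
abbrev T2 : Type := UnitAddCircle × UnitAddCircle

/-- the tent function -/
noncomputable def tent (y : ℝ) : ℝ := max 0 (1 - |y|)

/-- the kernel of the cells of size `ρ` -/
noncomputable def w0 (ρ s : ℝ) (u : T2) : ℝ :=
  tent (s / ρ) / ρ * (tent (‖u.1‖ / ρ) / ρ) * (tent (‖u.2‖ / ρ) / ρ)

/-- a system of primes with norms, classes in `H` and positions in the torus -/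
structure Sys (H : Type) where
  /-- the primes -/
  P : Type
  /-- the norm -/
  N : P → ℕ
  /-- the rational prime below -/
  q : P → ℕ
  qp : ∀ v, (q v).Prime
  qN : ∀ v, q v ≤ N v
  /-- the primes of norm at most `n` -/
  B : ℕ → Finset P
  mB : ∀ n v, v ∈ B n ↔ N v ≤ n
  q3 : ∀ (p : ℕ) (s : Finset P), (∀ v ∈ s, q v = p) → s.card ≤ 3
  /-- the class -/
  c : P → H
  /-- the position -/
  g : P → T2

namespace Sys

variable {H : Type} (S : Sys H)

/-- the logarithm of the norm -/
noncomputable def t (v : S.P) : ℝ := Real.log (S.N v)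

/-- the primes with `a ≤ t v ≤ b` -/
noncomputable def W (a b : ℝ) : Finset S.P := (S.B ⌊Real.exp b⌋₊).filter fun v => a ≤ S.t v

open Classical in
/-- the density of the primes in the cell at `(c, t, x)` -/
noncomputable def f (ρ : ℝ) (c : H) (t : ℝ) (x : T2) : ℝ :=
  Nat.card H * Real.exp (-t) * ∑ v ∈ S.B ⌊Real.exp (t + 1)⌋₊,
    if S.c v = c then S.t v * w0 ρ (S.t v - t) (S.g v - x) else 0

open Classical in
/-- the density of the products of two primes in the cell at `(c, t, x)` -/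
noncomputable def nf [AddCommGroup H] (ρ : ℝ) (c : H) (t : ℝ) (x : T2) : ℝ :=
  Nat.card H * Real.exp (-t) * ∑ v ∈ S.B ⌊Real.exp (t + 1)⌋₊, ∑ w ∈ S.B ⌊Real.exp (t + 1)⌋₊,
    if S.c v + S.c w = c then S.t v * S.t w * w0 ρ (S.t v + S.t w - t) (S.g v + S.g w - x) else 0

/-- Selberg's formula in the cells -/
def Sel [AddCommGroup H] : Prop := ∀ ε : ℝ, 0 < ε → ∃ d t₀ : ℝ, 0 < d ∧ ∀ ρ t : ℝ, t₀ ≤ t → Real.exp (-(d * t)) ≤ ρ →
  ρ ≤ 1 / 4 → ∀ (c : H) (x : T2), |t * S.f ρ c t x + S.nf ρ c t x - 2 * t| ≤ ε * t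

open Classical in
/-- the theorem of Mertens in the classes -/
def Mer : Prop := ∀ c : H, ∃ C : ℝ, ∀ t : ℝ, 0 ≤ t →
  |(∑ v ∈ S.B ⌊Real.exp t⌋₊, if S.c v = c then S.t v / S.N v else 0) - t / Nat.card H| ≤ C

/-- the density, smoothed with `w0 * w0` -/
noncomputable def ft (ρ : ℝ) (c : H) (t : ℝ) (x : T2) : ℝ :=
  ∫ a : ℝ × T2, ∫ b : ℝ × T2, S.f ρ c (t - a.1 - b.1) (x - a.2 - b.2) * w0 ρ a.1 a.2 * w0 ρ b.1 b.2

end Sys

end Pool.Agent.H38.MM
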